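import Pool.Agent.W788.NV.Stm

namespace Pool.Agent.W298.NV.Lr

open Finset Pool.Agent.W788.NV

theorem mulVec_mgen {S ι : Type} [Fintype S] [DecidableEq S] [Fintype ι]
    (r : ι → ℝ) (m : ι → S → S) (F : S → ℝ) (x : S) :
    (mgen r m).mulVec F x = gf r m F x := by
  simp only [Matrix.mulVec, dotProduct, mgen, gf]
  simp only [Finset.sum_mul]
  rw [Finset.sum_comm]
  refine Finset.sum_congr rfl fun e _ => ?_
  have : ∀ y, r e * ((if y = m e x then (1 : ℝ) else 0) - (if y = x then 1 else 0)) * F y =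
      r e * ((if y = m e x then F y else 0) - (if y = x then F y else 0)) := by
    intro y
    split_ifs <;> ring
  simp only [this]
  rw [← Finset.mul_sum, Finset.sum_sub_distrib]
  simp

theorem sg_hasSum {S ι : Type} [Fintype S] [DecidableEq S] [Fintype ι]
    (r : ι → ℝ) (m : ι → S → S) (t : ℝ) (F : S → ℝ) (x : S) :
    HasSum (fun n : ℕ => ((n.factorial : ℝ)⁻¹ * t ^ n) * ((mgen r m) ^ n).mulVec F x)
      (sg r m t F x) := by
  let _ : NormedRing (Matrix S S ℝ) := Matrix.linftyOpNormedRing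
  let _ : NormedAlgebra ℝ (Matrix S S ℝ) := Matrix.linftyOpNormedAlgebra
  have h := NormedSpace.exp_series_hasSum_exp' (𝕂 := ℝ) (t • mgen r m)
  have h1 : ∀ (i j : S), HasSum (fun n : ℕ => (((n.factorial : ℝ)⁻¹) • (t • mgen r m) ^ n) i j)
      (NormedSpace.exp (t • mgen r m) i j) := by
    intro i j
    have := (Pi.hasSum.mp ((Pi.hasSum.mp h) i)) j
    exact this
  have h2 : HasSum (fun n : ℕ => ∑ j, (((n.factorial : ℝ)⁻¹) • (t • mgen r m) ^ n) x j * F j)
      (∑ j, NormedSpace.exp (t • mgen r m) x j * F j) :=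
    hasSum_sum fun j _ => (h1 x j).mul_right (F j)
  have h3 : sg r m t F x = ∑ j, NormedSpace.exp (t • mgen r m) x j * F j := rfl
  rw [h3]
  convert h2 using 1
  funext n
  simp only [Matrix.mulVec, dotProduct, smul_pow, Matrix.smul_apply, smul_eq_mul]
  rw [Finset.mul_sum]
  refine Finset.sum_congr rfl fun j _ => ?_
  ring

theorem lr_ (_h : MK) : S_LR := by
  intro Ω ι _ _ _ r f F t
  set R : ι → (Ω → Ω) → (Ω → Ω) := fun e (Φ : Ω → Ω) => (fun x => Φ (f e x)) with hR
  set L : ι → (Ω → Ω) → (Ω → Ω) := fun e (Φ : Ω → Ω) => (fun x => f e (Φ x)) with hL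
  have hRL : ∀ (a b : ι) (Φ : Ω → Ω), R a (L b Φ) = L b (R a Φ) := fun a b Φ => rfl
  have hcomm : mgen r R * mgen r L = mgen r L * mgen r R := by
    apply Matrix.ext_of_mulVec_single
    intro j
    rw [← Matrix.mulVec_mulVec, ← Matrix.mulVec_mulVec]
    funext Φ
    have e1 : ∀ G : (Ω → Ω) → ℝ, (mgen r R).mulVec G = gf r R G := fun G =>
      funext fun x => mulVec_mgen r R G x
    have e2 : ∀ G : (Ω → Ω) → ℝ, (mgen r L).mulVec G = gf r L G := fun G =>
      funext fun x => mulVec_mgen r L G x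
    rw [e1, e2, e2, e1]
    simp only [gf]
    simp only [← Finset.sum_sub_distrib, Finset.mul_sum]
    rw [Finset.sum_comm]
    refine Finset.sum_congr rfl fun b _ => Finset.sum_congr rfl fun a _ => ?_
    rw [hRL]
    ring
  have hid : ∀ G : (Ω → Ω) → ℝ, (mgen r R).mulVec G id = (mgen r L).mulVec G id := by
    intro G
    rw [mulVec_mgen, mulVec_mgen]
    rfl
  have hpow : ∀ (k : ℕ) (G : (Ω → Ω) → ℝ),
      ((mgen r R) ^ k).mulVec G id = ((mgen r L) ^ k).mulVec G id := by
    intro k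
    induction k with
    | zero => intro G; simp
    | succ k ih =>
      intro G
      rw [pow_succ, ← Matrix.mulVec_mulVec, ih, Matrix.mulVec_mulVec]
      have hc : mgen r L ^ k * mgen r R = mgen r R * mgen r L ^ k :=
        ((show Commute (mgen r R) (mgen r L) from hcomm).pow_right k).symm.eq
      rw [hc, ← Matrix.mulVec_mulVec, hid, Matrix.mulVec_mulVec, pow_succ']
  have h1 := sg_hasSum r R t F id
  have h2 := sg_hasSum r L t F id
  have h3 : (fun n : ℕ => ((n.factorial : ℝ)⁻¹ * t ^ n) * ((mgen r R) ^ n).mulVec F id) =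
      (fun n : ℕ => ((n.factorial : ℝ)⁻¹ * t ^ n) * ((mgen r L) ^ n).mulVec F id) := by
    funext n
    rw [hpow]
  rw [h3] at h1
  exact h1.unique h2

end Pool.Agent.W298.NV.Lr
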